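import Pool.Agent.W_MP_fee8af_an.Levels

/-!
For every `n ≥ 2` there is a graph matchbox manifold (the closure of the leaf through `T`) at
infinite level whose substructure `S(L)` contains a leaf at every finite level.
-/

namespace Pool.Agent.Results.MP_fee8af_an.AllFiniteLevels

open Pool.Agent.W_MP_fee8af_an

theorem result : ∀ n : ℕ, 2 ≤ n → ∃ T : X n,
    InfiniteLevel (closure (leaf T)) ∧
      ∀ k : ℕ, ∃ S ∈ nonDense (closure (leaf T)), AtLevel k (closure (leaf S)) :=
  main

end Pool.Agent.Results.MP_fee8af_an.AllFiniteLevels
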